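import Mathlib

set_option autoImplicit false
set_option maxHeartbeats 400000

namespace Pool.Agent.Results.MP_09fe95_al.Summand

open Module

universe u v w

/-- The diagonal action on the `n`-fold tensor power. -/
noncomputable def tp {M : Type u} {k : Type v} {V : Type w} [Monoid M] [Field k] [AddCommGroup V]
    [Module k V] (ρ : Representation k M V) (n : ℕ) (m : M) : Module.End k (TensorPower k n V) :=
  PiTensorProduct.map fun _ => ρ m

/-- `U` is the direct sum of two invariant subspaces `W`, `C`, where `W ≠ 0` is killed by the non-units. -/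
def HasIndSummand {M : Type u} {k : Type v} {U : Type w} [Monoid M] [Field k] [AddCommGroup U]
    [Module k U] (σ : M → Module.End k U) : Prop :=
  ∃ W C : Submodule k U, W ≠ ⊥ ∧ IsCompl W C ∧ (∀ m, ∀ x ∈ W, σ m x ∈ W) ∧
    (∀ m, ∀ x ∈ C, σ m x ∈ C) ∧ ∀ m, ¬ IsUnit m → ∀ x ∈ W, σ m x = 0

variable {M : Type u} {k : Type v} [Monoid M] [Field k]

theorem abs {U : Type w} [AddCommGroup U] [Module k U] [Fintype Mˣ] (σ : M →* End k U) (u : U)
    (Φ : Dual k U) (ha : ∀ m, ¬ IsUnit m → σ m u = 0) (hb : ∀ m, ¬ IsUnit m → ∀ x, Φ (σ m x) = 0)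
    (c : k) (hc : c ≠ 0) (hu : u ≠ 0) (h : ∑ g : Mˣ, Φ (σ g⁻¹.1 u) • σ g u = c • u) :
    HasIndSummand (fun m => σ m) := by
  obtain ⟨p, hp⟩ : ∃ p : End k U, ∀ x, p x = c⁻¹ • ∑ g : Mˣ, Φ (σ g⁻¹.1 x) • σ g u :=
    ⟨c⁻¹ • ∑ g : Mˣ, (Φ ∘ₗ σ g⁻¹.1).smulRight (σ g u), fun x => by simp⟩
  have h0 : ∀ m, ¬ IsUnit m → ∀ x, σ m (p x) = 0 := fun m hm x => by
    rw [hp, map_smul, map_sum, Finset.sum_eq_zero, smul_zero]
    intro g _
    rw [map_smul, ← End.mul_apply, ← map_mul, ha _ (by simpa using hm), smul_zero]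
  have h1 : ∀ m x, p (σ m x) = σ m (p x) := fun m x => by
    by_cases hm : IsUnit m
    · obtain ⟨a, rfl⟩ := hm
      rw [hp, hp, map_smul, map_sum, ← Equiv.sum_comp (Equiv.mulLeft a)]
      congr 1
      refine Finset.sum_congr rfl fun g _ => ?_
      rw [map_smul, ← End.mul_apply, ← map_mul, ← End.mul_apply (σ a), ← map_mul]
      simp [mul_assoc]
    · rw [h0 m hm, hp, Finset.sum_eq_zero, smul_zero]
      intro g _
      rw [← End.mul_apply, ← map_mul, hb _ (by simpa using hm), zero_smul]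
  have h2 : p u = u := by rw [hp, h, smul_smul, inv_mul_cancel₀ hc, one_smul]
  have h3 : IsIdempotentElem p := LinearMap.ext fun x => by
    rw [End.mul_apply, hp x, map_smul, map_sum]
    simp only [map_smul, h1, h2]
  refine ⟨LinearMap.range p, LinearMap.ker p, fun e => hu ?_, LinearMap.IsIdempotentElem.isCompl h3, ?_, fun m x hx => ?_, ?_⟩
  · exact (Submodule.eq_bot_iff _).1 e u ⟨u, h2⟩
  · rintro m - ⟨x, rfl⟩
    exact ⟨_, h1 m x⟩
  · rw [LinearMap.mem_ker] at hx ⊢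
    rw [h1, hx, map_zero]
  · rintro m hm - ⟨x, rfl⟩
    exact h0 m hm x

variable {V : Type w} [AddCommGroup V] [Module k V]

theorem sep (p : Submodule k V) (v : V) (hv : v ∉ p) :
    ∃ φ : Dual k V, φ v = 1 ∧ ∀ x ∈ p, φ x = 0 := by
  obtain ⟨f, h1, h2⟩ := Submodule.exists_le_ker_of_notMem hv
  exact ⟨(f v)⁻¹ • f, by simp [h1], fun x hx => by simp [LinearMap.mem_ker.1 (h2 hx)]⟩

theorem nonunit [Finite M] (ρ : Representation k M V) (hρ : ∀ m, ρ m = 1 → m = 1) (m : M)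
    (h : IsUnit (ρ m)) : IsUnit m := by
  obtain ⟨a, b, hab, e⟩ : ∃ a b : ℕ, a < b ∧ m ^ a = m ^ b := by
    obtain ⟨a, b, hab, e⟩ := Finite.exists_ne_map_eq_of_infinite fun n : ℕ => m ^ n
    rcases lt_or_gt_of_ne hab with h | h
    exacts [⟨a, b, h, e⟩, ⟨b, a, h, e.symm⟩]
  obtain ⟨d, rfl⟩ := Nat.exists_eq_add_of_lt hab
  refine IsUnit.of_pow_eq_one (n := d + 1) (hρ _ ((h.pow a).mul_left_cancel ?_)) (by omega)
  rw [mul_one, ← map_pow, ← map_mul, ← pow_add, ← add_assoc, ← e]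

theorem pairs [Finite M] [FiniteDimensional k V] [Nontrivial V] (ρ : Representation k M V)
    (hρ : ∀ m, ρ m = 1 → m = 1) (i : M × Fin 3) : ∃ (u : V) (φ : Dual k V), φ u = 1 ∧
      (i.2 = 0 → ¬ IsUnit i.1 → ρ i.1 u = 0) ∧ (i.2 = 1 → ¬ IsUnit i.1 → ∀ x, φ (ρ i.1 x) = 0) ∧
      (i.2 = 2 → (¬ ∃ a : k, ρ i.1 = a • 1) → φ (ρ i.1 u) = 0) := by
  obtain ⟨m, j⟩ := i
  by_cases h0 : j = 0 ∧ ¬ IsUnit m
  · obtain ⟨u, hu, hu'⟩ := (Submodule.ne_bot_iff _).1 fun e =>
      h0.2 (nonunit ρ hρ m ((LinearMap.isUnit_iff_ker_eq_bot _).2 e))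
    obtain ⟨φ, hφ⟩ := Projective.exists_dual_eq_one k hu'
    exact ⟨u, φ, hφ, fun _ _ => hu, by simp [h0.1], by simp [h0.1]⟩
  by_cases h1 : j = 1 ∧ ¬ IsUnit m
  · obtain ⟨u, hu⟩ : ∃ u, u ∉ LinearMap.range (ρ m) := by
      by_contra! e
      exact h1.2 (nonunit ρ hρ m ((LinearMap.isUnit_iff_range_eq_top _).2 (eq_top_iff.2 fun x _ => e x)))
    obtain ⟨φ, hφ, hφ'⟩ := sep _ u hu
    exact ⟨u, φ, hφ, by simp [h1.1], fun _ _ x => hφ' _ ⟨x, rfl⟩, by simp [h1.1]⟩
  by_cases h2 : j = 2 ∧ ¬ ∃ a : k, ρ m = a • 1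
  · obtain ⟨u, hu⟩ : ∃ u, LinearIndependent k ![u, ρ m u] := by
      by_contra! e
      exact h2.2 (LinearMap.exists_eq_smul_id_of_forall_notLinearIndependent e)
    obtain ⟨φ, hφ, hφ'⟩ := sep (k ∙ ρ m u) u fun e => by
      obtain ⟨c, hc⟩ := Submodule.mem_span_singleton.1 e
      exact one_ne_zero (LinearIndependent.pair_iff.1 hu 1 (-c) (by simp [hc])).1
    exact ⟨u, φ, hφ, by simp [h2.1], by simp [h2.1],
      fun _ _ => hφ' _ (Submodule.mem_span_singleton_self _)⟩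
  obtain ⟨u, hu⟩ := exists_ne (0 : V)
  obtain ⟨φ, hφ⟩ := Projective.exists_dual_eq_one k hu
  exact ⟨u, φ, hφ, fun a b => (h0 ⟨a, b⟩).elim, fun a b => (h1 ⟨a, b⟩).elim,
    fun a b => (h2 ⟨a, b⟩).elim⟩

def Z (ρ : Representation k M V) : Subgroup Mˣ where
  carrier := {g | ∃ a : kˣ, ρ g = a.1 • 1}
  one_mem' := ⟨1, by simp⟩
  mul_mem' := fun ⟨a, ha⟩ ⟨b, hb⟩ => ⟨a * b, by simp [ha, hb, smul_smul, mul_comm]⟩
  inv_mem' := fun {g} ⟨a, ha⟩ => ⟨a⁻¹, by
    have : ρ g⁻¹.1 * ρ g = 1 := by rw [← map_mul]; simp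
    rw [← this, ha]
    simp [smul_smul]⟩

theorem card_Z [Finite M] [Nontrivial V] (ρ : Representation k M V) (hρ : ∀ m, ρ m = 1 → m = 1) :
    (Nat.card (Z ρ) : k) ≠ 0 := by
  intro h
  have h1 := (ringChar.spec k _).1 h
  have hp : (ringChar k).Prime := (CharP.char_is_prime_or_zero k _).resolve_right fun e => by
    rw [e, zero_dvd_iff] at h1
    exact Nat.card_pos.ne' h1
  have := Fact.mk hp
  obtain ⟨⟨g, a, ha⟩, hg⟩ := exists_prime_orderOf_dvd_card' _ h1
  have h2 : g ^ ringChar k = 1 := by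
    rw [← hg]
    exact congrArg Subtype.val (pow_orderOf_eq_one (⟨g, a, ha⟩ : Z ρ))
  have h3 : (a.1 ^ ringChar k) • (1 : End k V) = (1 : k) • 1 := by
    rw [← one_pow (ringChar k) (M := End k V), ← smul_pow, ← ha, ← map_pow, ← Units.val_pow_eq_pow_val, h2]
    simp
  have h4 : a.1 = 1 := frobenius_inj k (ringChar k)
    (by simpa [frobenius_def] using smul_left_injective k one_ne_zero h3)
  have h5 : g = 1 := Units.ext (hρ _ (by simp [ha, h4]))
  subst h5
  exact hp.one_lt.ne' (hg.symm.trans orderOf_one)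

theorem result {M : Type u} {k : Type v} {V : Type w} [Monoid M] [Finite M] [Field k]
    [IsAlgClosed k] [AddCommGroup V] [Module k V] [FiniteDimensional k V] [Nontrivial V]
    (ρ : Representation k M V) (hρ : ∀ m, ρ m = 1 → m = 1) :
    ∃ n : ℕ, 1 ≤ n ∧ HasIndSummand (tp ρ n) := by
  classical
  have := Fintype.ofFinite M
  choose u φ h0 h1 h2 h3 using pairs ρ hρ
  let e := Fintype.equivFin (M × Fin 3)
  let n := Fintype.card (M × Fin 3)
  let σ : M →* End k (TensorPower k n V) :=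
    PiTensorProduct.mapMonoidHom.comp (MonoidHom.pi fun _ => ρ)
  let Φ : Dual k (TensorPower k n V) := PiTensorProduct.lift
    ((MultilinearMap.mkPiAlgebra k (Fin n) k).compLinearMap fun i => φ (e.symm i))
  have hΦ : ∀ x : Fin n → V, Φ (PiTensorProduct.tprod k x) = ∏ i, φ (e.symm i) (x i) :=
    fun x => by simp [Φ]; rfl
  have hσ : ∀ m (x : Fin n → V), σ m (PiTensorProduct.tprod k x) =
      PiTensorProduct.tprod k fun i => ρ m (x i) := fun m x => PiTensorProduct.map_tprod _ _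
  have hU : Φ (PiTensorProduct.tprod k fun i => u (e.symm i)) = 1 := by simp [hΦ, h0]
  refine ⟨n, Fintype.card_pos, abs σ (PiTensorProduct.tprod k fun i => u (e.symm i)) Φ
    (fun m hm => ?_) (fun m hm x => ?_) _ (card_Z ρ hρ) (fun h => by simp [h] at hU) ?_⟩
  · rw [hσ]
    exact MultilinearMap.map_coord_zero _ (e (m, 0)) (by simpa using h1 (m, 0) rfl hm)
  · induction x using PiTensorProduct.induction_on with
    | smul_tprod r x =>
      rw [map_smul, map_smul, hσ, hΦ, Finset.prod_eq_zero (Finset.mem_univ (e (m, 1)))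
        (by simpa using h2 (m, 1) rfl hm _), smul_zero]
    | add x y hx hy => rw [map_add, map_add, hx, hy, add_zero]
  · rw [Nat.card_eq_fintype_card, Fintype.card_subtype, Nat.cast_smul_eq_nsmul, ← Finset.sum_const,
      Finset.sum_filter]
    refine Finset.sum_congr rfl fun g _ => ?_
    split_ifs with hg
    · obtain ⟨a, ha⟩ := (Z ρ).inv_mem hg
      have h4 : σ g⁻¹.1 (PiTensorProduct.tprod k fun i => u (e.symm i)) =
          (∏ _i : Fin n, a.1) • PiTensorProduct.tprod k fun i => u (e.symm i) := by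
        rw [hσ, ← MultilinearMap.map_smul_univ, ha]
        rfl
      rw [h4, map_smul, hU, smul_eq_mul, mul_one, ← map_smul, ← h4, ← End.mul_apply, ← map_mul]
      simp
    · rw [hσ, hΦ, Finset.prod_eq_zero (Finset.mem_univ (e (g⁻¹.1, 2))), zero_smul]
      rw [Equiv.symm_apply_apply]
      refine h3 (g⁻¹.1, 2) rfl fun ⟨a, ha⟩ => hg ((Z ρ).inv_mem_iff.1 ⟨Units.mk0 a ?_, ha⟩)
      rintro rfl
      have : ρ g⁻¹.1 * ρ g = 1 := by rw [← map_mul]; simp
      rw [ha] at this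
      simp at this

end Pool.Agent.Results.MP_09fe95_al.Summand
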